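import Mathlib

namespace Pool.Agent.Results.MP_0634a4_nt.Counter

/-- The l-sequence: u 0 = 0, u 1 = 1, u (m+2) = l * u (m+1) - u m. -/
def u (l : ℤ) : ℕ → ℤ
  | 0 => 0
  | 1 => 1
  | (m + 2) => l * u l (m + 1) - u l m

/-- Tail sum of odd powers S_k(j,n). -/
def S (l : ℤ) (k j n : ℕ) : ℚ := ∑ i ∈ Finset.Icc j n, (u l i : ℚ) ^ (2 * k - 1)

/-- The product P_{n,k}. -/
def P (l : ℤ) (n k : ℕ) : ℚ := ∏ j ∈ Finset.Icc 1 n, S l k j n / (u l j : ℚ)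

/-- The ratio R_{n,k}. -/
def R (l : ℤ) (n k : ℕ) : ℚ := S l k 1 n / S l 1 1 n

/-- The ratio T_{n,k}. -/
def T (l : ℤ) (n k : ℕ) : ℚ :=
  (∑ i ∈ Finset.Icc 1 n, (u l i : ℚ) ^ (3 * (4 * k - 3))) / (∑ i ∈ Finset.Icc 1 n, (u l i : ℚ) ^ 3)

theorem result :
    ¬ (∀ n k : ℕ, 1 ≤ n → 1 ≤ k →
        (∀ l : ℤ, 2 ≤ l → (∃ z : ℤ, P l n k = z) ∧ (∃ z : ℤ, R l n k = z)) ∧
        (∃ z : ℤ, T 2 n k = z)) := by
  intro h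
  obtain ⟨-, z, hz⟩ := h 10 5 (by norm_num) (by norm_num)
  have hden : (T 2 10 5).den = 11 := by decide +kernel
  rw [hz] at hden
  simp at hden

end Pool.Agent.Results.MP_0634a4_nt.Counter
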